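import Pool.Agent.H679R2.M1.Defs
import Pool.Agent.H64.FN.Defs

/-! Reductions from clique problems to satisfiability of short formulas, computed by circuits of AND
and OR gates on bits and negated bits, where the negated bits are unreliable. -/

set_option autoImplicit false

namespace Pool.Agent.H64.FR

open Pool.Agent.H520R2.NM (Circuit Wire)
open Pool.Agent.H679R2.M1 (Clause Sat)
open Pool.Agent.H64.FN (literals)

/-- A truth-table reduction from a problem on graphs with vertex set `Fin n` to the satisfiability
problem for formulas in `Γ_{1,d}` over `v` variables, with nondecreasing answers. The circuit `C` of
AND and OR gates gets the literals: `(e, true)` is the bit of the pair `e`, `(e, false)` its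
negation. The wire `drop i c` says whether the clause `c` is dropped from the `i`-th formula: the
formula consists of all clauses with at most `d` literals that are not dropped. The answer is a
nondecreasing function `ev` of the `q` answers to the questions whether these formulas are
satisfiable. A many-one reduction is the case in which `q = 1` and `ev` is the identity. -/
structure LitReduction (n v d q N : ℕ) where
  /-- the circuit -/
  C : Circuit (Sym2 (Fin n) × Bool) N
  /-- there are only AND and OR gates -/
  plain : C.fanins = []
  /-- the wire that says whether the clause `c` is dropped from the `i`-th formula -/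
  drop : Fin q → Clause v d → Wire (Sym2 (Fin n) × Bool) N
  /-- the evaluation of the `q` answers -/
  ev : (Fin q → Bool) → Bool
  ev_mono : Monotone ev

open Classical in
/-- The answer of the reduction if the literals have the values `y`. -/
noncomputable def LitReduction.answer {n v d q N : ℕ} (R : LitReduction n v d q N)
    (y : Sym2 (Fin n) × Bool → Bool) : Bool :=
  R.ev fun i => decide (Sat fun c => !(R.drop i c).eval y (R.C.vals y))

/-- The graph with the edge indicators `x`. (Only the bits of pairs of different vertices
count.) -/
abbrev graph {n : ℕ} (x : Sym2 (Fin n) → Bool) : SimpleGraph (Fin n) :=
  SimpleGraph.fromEdgeSet {e | x e = true}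

/-- The random reduction `A` (a uniformly chosen member of a finite family; `A r y` is the answer of
the member `r` if the literals have the values `y`) tells graphs with a clique of `s` vertices from
graphs without clique of `k` vertices, in spite of faults: it answers `true` with probability at
least `4 / 5` on the former, even if each negated input is stuck at `0` independently with
probability `1 / D` (each pair `e` gets a random number `f e` from `0` to `D - 1`, and `0` means a
fault), and with probability at most `1 / 4` on the latter, without faults. -/
structure Tolerates {n : ℕ} (s k D : ℕ) {Ω : Type} (A : Ω → (Sym2 (Fin n) × Bool → Bool) → Bool) :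
    Prop where
  yes : ∀ x : Sym2 (Fin n) → Bool, ¬ (graph x).CliqueFree s →
    (4 / 5 : ℝ) ≤ (Nat.card {v : Ω × (Sym2 (Fin n) → Fin D) //
      A v.1 (literals x {e | (v.2 e : ℕ) = 0}) = true} : ℝ) /
        Nat.card (Ω × (Sym2 (Fin n) → Fin D))
  no : ∀ x : Sym2 (Fin n) → Bool, (graph x).CliqueFree k →
    (Nat.card {r : Ω // A r (literals x ∅) = true} : ℝ) / Nat.card Ω ≤ 1 / 4

end Pool.Agent.H64.FR
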