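import Pool.Agent.H64.FR.Host

/-! No random reductions with unreliable negations. -/

set_option autoImplicit false
set_option linter.unusedSectionVars false
set_option linter.unusedVariables false

namespace Pool.Agent.H64.FR

open Finset Filter
open Pool.Agent.H520R2.NM (Circuit Wire)
open Pool.Agent.H679R2.M1 (Clause Sat bits bits_succ_le log_small)
open Pool.Agent.H64.FN

/-- numbers -/
lemma size_small {P E D n t : ℕ} {θ : ℝ} (hθ1 : θ < 1) (hD : 1 ≤ D) (hE : 0 < E)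
    (hPE : (P : ℝ) / E ≤ (1 - θ) / 2) (hDE : D ^ E ≤ n) (ht : t = 4 * D ^ P)
    (hn1 : 1 ≤ n) (hθ0 : 0 ≤ θ) (h16 : (16 : ℝ) ≤ (n : ℝ) ^ ((1 - θ) / 2)) :
    (n : ℝ) ^ θ ≤ ((n / t : ℕ) : ℝ) := by
  have hn0 : (0 : ℝ) < n := by exact_mod_cast hn1
  have hn1' : (1 : ℝ) ≤ n := by exact_mod_cast hn1
  have hD0 : (0 : ℝ) < D := by exact_mod_cast hD
  have hE0 : (0 : ℝ) < E := by exact_mod_cast hE
  have hDP : (D : ℝ) ^ P ≤ (n : ℝ) ^ ((1 - θ) / 2) := by
    have h1 : ((D : ℝ) ^ E) ≤ n := by exact_mod_cast hDE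
    calc (D : ℝ) ^ P = ((D : ℝ) ^ E) ^ ((P : ℝ) / E) := by
          rw [← Real.rpow_natCast (D : ℝ) E, ← Real.rpow_mul hD0.le, mul_div_cancel₀ _ hE0.ne',
            Real.rpow_natCast]
      _ ≤ (n : ℝ) ^ ((P : ℝ) / E) := Real.rpow_le_rpow (by positivity) h1 (by positivity)
      _ ≤ (n : ℝ) ^ ((1 - θ) / 2) := Real.rpow_le_rpow_of_exponent_le hn1' hPE
  have ht0 : (0 : ℝ) < t := by
    rw [ht]
    push_cast
    positivity
  have ht1 : (t : ℝ) ≤ 4 * (n : ℝ) ^ ((1 - θ) / 2) := by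
    rw [ht]
    push_cast
    linarith
  have h1 : (n : ℝ) < t * ((n / t : ℕ) + 1 : ℝ) := by
    have h2 : n < t * (n / t + 1) := by
      have ht' : 0 < t := by exact_mod_cast ht0
      rw [Nat.mul_comm]
      exact Nat.lt_mul_of_div_lt (Nat.lt_succ_self _) ht'
    exact_mod_cast h2
  set y : ℝ := (n : ℝ) ^ ((1 - θ) / 2) with hy
  set z : ℝ := (n : ℝ) ^ θ with hz
  have hz1 : 1 ≤ z := Real.one_le_rpow hn1' hθ0
  have hnyz : (n : ℝ) = z * y * y := by
    rw [hz, hy, ← Real.rpow_add hn0, ← Real.rpow_add hn0]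
    rw [show θ + (1 - θ) / 2 + (1 - θ) / 2 = 1 by ring, Real.rpow_one]
  by_contra hcon
  rw [not_le] at hcon
  have h3 : (n : ℝ) < 4 * y * (z + 1) := by
    refine lt_of_lt_of_le h1 ?_
    exact mul_le_mul ht1 (by linarith) (by positivity) (by positivity)
  rw [hnyz] at h3
  have hy0 : 0 < y := by linarith
  have h4 : z * y < 4 * (z + 1) := by
    have h5 : z * y * y < 4 * (z + 1) * y := by linarith
    exact lt_of_mul_lt_mul_right h5 hy0.le
  nlinarith

/-- The main statement. -/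
theorem no_tolerant (f g s : ℕ → ℕ) (hs : ∀ k, k ≤ s k) (c d : ℕ) (γ : ℝ) (hγ0 : 0 ≤ γ)
    (hγ : γ < 2) :
    ∀ᶠ k : ℕ in atTop, ∃ E : ℕ, ∀ᶠ n : ℕ in atTop, ∀ D : ℕ, 1 ≤ D → D ^ E ≤ n →
      ∀ (Ω : Type) [Fintype Ω] [Nonempty Ω] (v q N : Ω → ℕ)
        (R : ∀ r, LitReduction n (v r) d (q r) (N r)),
        (∀ r, v r ≤ g k * (Nat.log 2 (f k * n ^ c) + 1)) →
        (∀ r, ((q r + 1 : ℕ) : ℝ) ≤ (n : ℝ) ^ γ) → (∀ r, (R r).C.size ≤ f k * n ^ c) →
          ¬ Tolerates (s k) k D fun r y => (R r).answer y := by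
  classical
  set δ : ℝ := (2 - γ) / 4 with hδ
  have hδp : 0 < δ := by rw [hδ]; linarith
  set γ' : ℝ := γ + 2 * δ with hγ'
  have hγ'2 : γ' < 2 := by rw [hγ', hδ]; linarith
  have hγ'0 : 0 < γ' := by rw [hγ']; linarith
  have hmain := Pool.Agent.H559R10.fpt_gap (fun k => f k + 1) s hs (c + 3) γ' hγ'0.le hγ'2
  filter_upwards [hmain] with k hk
  obtain ⟨α, hα, hn⟩ := hk
  obtain ⟨N₁, hN₁⟩ := eventually_atTop.1 hn
  set θ : ℝ := max ((γ + δ) / γ') (((c : ℝ) + 2) / (c + 3)) with hθ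
  have hc3 : (0 : ℝ) < (c : ℝ) + 3 := by positivity
  have hθ1 : θ < 1 := by
    rw [hθ, max_lt_iff]
    constructor
    · rw [div_lt_one hγ'0, hγ']; linarith
    · rw [div_lt_one hc3]; linarith
  have hθ0 : 0 < θ := lt_of_lt_of_le (by positivity) (le_max_right _ _)
  have hθγ : γ + δ ≤ θ * γ' := by
    have := le_max_left ((γ + δ) / γ') (((c : ℝ) + 2) / (c + 3))
    rw [← hθ, div_le_iff₀ hγ'0] at this
    exact this
  have hθc : (c : ℝ) + 2 ≤ θ * (c + 3) := by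
    have := le_max_right ((γ + δ) / γ') (((c : ℝ) + 2) / (c + 3))
    rw [← hθ, div_le_iff₀ hc3] at this
    exact this
  set P := (s k) ^ 2 with hP
  set E := ⌈2 * (P : ℝ) / (1 - θ)⌉₊ + 1 with hE
  have h1θ : 0 < 1 - θ := by linarith
  have hPE : (P : ℝ) / E ≤ (1 - θ) / 2 := by
    have h1 : 2 * (P : ℝ) / (1 - θ) ≤ E := by
      refine (Nat.le_ceil _).trans ?_
      rw [hE]
      push_cast
      linarith
    have hE0 : (0 : ℝ) < E := by rw [hE]; positivity
    rw [div_le_iff₀ h1θ] at h1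
    rw [div_le_iff₀ hE0]
    linarith
  refine ⟨E, ?_⟩
  have hev1 : ∀ᶠ n : ℕ in atTop, (16 : ℝ) ≤ (n : ℝ) ^ ((1 - θ) / 2) :=
    ((tendsto_rpow_atTop (by linarith : (0 : ℝ) < (1 - θ) / 2)).comp
      tendsto_natCast_atTop_atTop).eventually_ge_atTop _
  have hev2 : ∀ᶠ n : ℕ in atTop, ((N₁ : ℝ) + 1) ≤ (n : ℝ) ^ θ :=
    ((tendsto_rpow_atTop hθ0).comp tendsto_natCast_atTop_atTop).eventually_ge_atTop _
  have hev3 : ∀ᶠ n : ℕ in atTop, (4 : ℝ) ≤ (n : ℝ) ^ (θ * α) :=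
    ((tendsto_rpow_atTop (mul_pos hθ0 hα)).comp tendsto_natCast_atTop_atTop).eventually_ge_atTop _
  filter_upwards [hev1, hev2, hev3, log_small (g k) (f k) c d hδp, eventually_ge_atTop 1]
    with n h16 hNθ h4θ hlog hn1
  intro D hD hDE Ω _ _ v q N R hv hq hsz hT
  have hn0 : (0 : ℝ) < n := by exact_mod_cast hn1
  have hn1' : (1 : ℝ) ≤ (n : ℝ) := by exact_mod_cast hn1
  set t := 4 * D ^ P with ht
  set n' := n / t with hn'
  have hbig : (n : ℝ) ^ θ ≤ (n' : ℝ) :=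
    size_small hθ1 hD (by omega) hPE hDE ht hn1 hθ0.le h16
  have hn'N : N₁ ≤ n' := by
    have : (N₁ : ℝ) ≤ n' := by linarith
    exact_mod_cast this
  have hn'1 : 1 ≤ n' := by
    have h1 : (1 : ℝ) ≤ (n' : ℝ) := (Real.one_le_rpow hn1' hθ0.le).trans hbig
    exact_mod_cast h1
  have hn'0 : (0 : ℝ) < n' := by exact_mod_cast hn'1
  have hθpos : 0 < (n : ℝ) ^ θ := Real.rpow_pos_of_pos hn0 _
  -- powers of `n'`
  have hpowγ : (n : ℝ) ^ (γ + δ) ≤ (n' : ℝ) ^ γ' := by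
    calc (n : ℝ) ^ (γ + δ) ≤ (n : ℝ) ^ (θ * γ') := Real.rpow_le_rpow_of_exponent_le hn1' hθγ
      _ = ((n : ℝ) ^ θ) ^ γ' := by rw [Real.rpow_mul hn0.le]
      _ ≤ _ := Real.rpow_le_rpow hθpos.le hbig hγ'0.le
  have hpowc : n ^ (c + 2) ≤ n' ^ (c + 3) := by
    have h1 : (n : ℝ) ^ ((c : ℝ) + 2) ≤ (n' : ℝ) ^ ((c : ℝ) + 3) := by
      calc (n : ℝ) ^ ((c : ℝ) + 2) ≤ (n : ℝ) ^ (θ * (c + 3)) :=
            Real.rpow_le_rpow_of_exponent_le hn1' hθc
        _ = ((n : ℝ) ^ θ) ^ ((c : ℝ) + 3) := by rw [Real.rpow_mul hn0.le]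
        _ ≤ _ := Real.rpow_le_rpow hθpos.le hbig hc3.le
    have e1 : (n : ℝ) ^ ((c : ℝ) + 2) = ((n ^ (c + 2) : ℕ) : ℝ) := by
      push_cast
      rw [← Real.rpow_natCast]
      push_cast
      rfl
    have e2 : (n' : ℝ) ^ ((c : ℝ) + 3) = ((n' ^ (c + 3) : ℕ) : ℝ) := by
      push_cast
      rw [← Real.rpow_natCast]
      push_cast
      rfl
    rw [e1, e2] at h1
    exact_mod_cast h1
  have hpowα : (n' : ℝ) ^ (-α) ≤ 1 / 4 := by
    have h1 : (4 : ℝ) ≤ (n' : ℝ) ^ α := by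
      calc (4 : ℝ) ≤ (n : ℝ) ^ (θ * α) := h4θ
        _ = ((n : ℝ) ^ θ) ^ α := by rw [Real.rpow_mul hn0.le]
        _ ≤ _ := Real.rpow_le_rpow hθpos.le hbig hα.le
    rw [Real.rpow_neg hn'0.le, ← one_div]
    exact one_div_le_one_div_of_le (by norm_num) h1
  -- the transfer
  obtain ⟨C, hC1, hC2, hC3, hC4⟩ := hosted hn'1 (Nat.div_mul_le_self n t) hD ht.ge R hT
  have hbits : ∀ r, ((bits (v r) d (q r) + 1 : ℕ) : ℝ) ≤ (n : ℝ) ^ (γ + δ) := by
    intro r
    have h1 : bits (v r) d (q r) + 1 ≤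
        (q r + 1) * (2 * (g k * (Nat.log 2 (f k * n ^ c) + 1)) + 1) ^ d := by
      refine (bits_succ_le (v r) d (q r)).trans ?_
      have := hv r
      gcongr
    rw [Real.rpow_add hn0]
    calc ((bits (v r) d (q r) + 1 : ℕ) : ℝ)
        ≤ (((q r + 1) * (2 * (g k * (Nat.log 2 (f k * n ^ c) + 1)) + 1) ^ d : ℕ) : ℝ) := by
          exact_mod_cast h1
      _ = ((q r + 1 : ℕ) : ℝ) *
          (((2 * (g k * (Nat.log 2 (f k * n ^ c) + 1)) + 1) ^ d : ℕ) : ℝ) := by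
          push_cast; ring
      _ ≤ _ := mul_le_mul (hq r) hlog (by positivity) (by positivity)
  haveI hDne : Nonempty (Fin D) := ⟨⟨0, hD⟩⟩
  set W : ℝ := (Fintype.card (Ω × (Sym2 (Fin n) → Fin D)) : ℝ) with hW
  have hW0 : 0 < W := by
    rw [hW]
    exact_mod_cast Fintype.card_pos
  obtain ⟨x, hx, hsum⟩ := (hN₁ n' hn'N).2 (Ω × (Sym2 (Fin n) → Fin D)) (fun _ => 1 / W)
    (fun _ => by positivity)
    (by rw [sum_const, card_univ, nsmul_eq_mul, ← hW]; field_simp)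
    (fun w => N w.1 + 1) C (fun w => lastW _ (N w.1))
    (by
      intro w
      rw [hC2]
      simp only [List.map_cons, List.map_nil, List.prod_cons, List.prod_nil, mul_one]
      exact (hbits w.1).trans hpowγ)
    (by
      intro w
      rw [hC1, hC2]
      simp only [List.sum_cons, List.sum_nil, add_zero]
      have hb : bits (v w.1) d (q w.1) ≤ n ^ 2 := by
        have h1 : ((bits (v w.1) d (q w.1) + 1 : ℕ) : ℝ) ≤ (n : ℝ) ^ (2 : ℝ) :=
          (hbits w.1).trans (Real.rpow_le_rpow_of_exponent_le hn1' (by rw [hδ]; linarith))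
        have h2 : ((bits (v w.1) d (q w.1) + 1 : ℕ) : ℝ) ≤ ((n ^ 2 : ℕ) : ℝ) := by
          refine h1.trans (le_of_eq ?_)
          push_cast
          exact Real.rpow_two _
        have h3 : bits (v w.1) d (q w.1) + 1 ≤ n ^ 2 := by exact_mod_cast h2
        omega
      have h5 : n ^ c ≤ n ^ (c + 2) := Nat.pow_le_pow_right hn1 (by omega)
      have h6 : n ^ 2 ≤ n ^ (c + 2) := Nat.pow_le_pow_right hn1 (by omega)
      calc (R w.1).C.size + bits (v w.1) d (q w.1) ≤ f k * n ^ c + n ^ 2 :=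
            Nat.add_le_add (hsz w.1) hb
        _ ≤ f k * n ^ (c + 2) + n ^ (c + 2) := Nat.add_le_add (Nat.mul_le_mul_left _ h5) h6
        _ = (f k + 1) * n ^ (c + 2) := by ring
        _ ≤ (f k + 1) * n' ^ (c + 3) := Nat.mul_le_mul_left _ hpowc)
  rw [sum_const, nsmul_eq_mul] at hsum
  -- the probability to be right is at least `3 / 4`
  have hright : (3 / 4 : ℝ) * W ≤ ((univ.filter fun w : Ω × (Sym2 (Fin n) → Fin D) =>
      Pool.Agent.H559R10.RightGap (s k) k x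
        ((lastW (Sym2 (Fin n')) (N w.1)).eval x ((C w).vals x))).card : ℝ) := by
    rcases hx with hx | hx
    · refine (hC3 x hx).trans ?_
      have h1 : (univ.filter fun w : Ω × (Sym2 (Fin n) → Fin D) =>
          (lastW (Sym2 (Fin n')) (N w.1)).eval x ((C w).vals x) = true) ⊆
          univ.filter fun w => Pool.Agent.H559R10.RightGap (s k) k x
            ((lastW (Sym2 (Fin n')) (N w.1)).eval x ((C w).vals x)) := by
        intro w hw
        rw [mem_filter] at hw ⊢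
        refine ⟨hw.1, fun _ => hw.2, fun h => absurd (h.mono (hs k)) hx⟩
      exact_mod_cast card_le_card h1
    · have h1 := hC4 x hx
      have h2 := card_filter_add_card_filter_not
        (s := (univ : Finset (Ω × (Sym2 (Fin n) → Fin D))))
        (p := fun w => (lastW (Sym2 (Fin n')) (N w.1)).eval x ((C w).vals x) = true)
      rw [card_univ] at h2
      have h3 : ((univ.filter fun w : Ω × (Sym2 (Fin n) → Fin D) =>
          (lastW (Sym2 (Fin n')) (N w.1)).eval x ((C w).vals x) = true).card : ℝ) +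
          ((univ.filter fun w : Ω × (Sym2 (Fin n) → Fin D) =>
          ¬ (lastW (Sym2 (Fin n')) (N w.1)).eval x ((C w).vals x) = true).card : ℝ) = W := by
        rw [hW]
        exact_mod_cast h2
      have h4 : (univ.filter fun w : Ω × (Sym2 (Fin n) → Fin D) =>
          ¬ (lastW (Sym2 (Fin n')) (N w.1)).eval x ((C w).vals x) = true) ⊆
          univ.filter fun w => Pool.Agent.H559R10.RightGap (s k) k x
            ((lastW (Sym2 (Fin n')) (N w.1)).eval x ((C w).vals x)) := by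
        intro w hw
        rw [mem_filter] at hw ⊢
        refine ⟨hw.1, fun h => absurd (hx.mono (hs k)) h, fun _ => ?_⟩
        simpa using hw.2
      have h5 : ((univ.filter fun w : Ω × (Sym2 (Fin n) → Fin D) =>
          ¬ (lastW (Sym2 (Fin n')) (N w.1)).eval x ((C w).vals x) = true).card : ℝ) ≤
          ((univ.filter fun w => Pool.Agent.H559R10.RightGap (s k) k x
            ((lastW (Sym2 (Fin n')) (N w.1)).eval x ((C w).vals x))).card : ℝ) := by
        exact_mod_cast card_le_card h4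
      linarith
  have h6 : (3 / 4 : ℝ) ≤ ((univ.filter fun w : Ω × (Sym2 (Fin n) → Fin D) =>
      Pool.Agent.H559R10.RightGap (s k) k x
        ((lastW (Sym2 (Fin n')) (N w.1)).eval x ((C w).vals x))).card : ℝ) * (1 / W) := by
    rw [mul_one_div, le_div_iff₀ hW0]
    exact hright
  linarith

end Pool.Agent.H64.FR
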