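import Pool.Agent.H64.FR.Defs
import Pool.Agent.H64.FN.Host
import Pool.Agent.H679R2.M1.Main

/-! The small graph is hidden at the faulty positions between classes of vertices. -/

set_option autoImplicit false
set_option linter.unusedSectionVars false
set_option linter.unusedVariables false

namespace Pool.Agent.H64.FR

open Finset
open Pool.Agent.H520R2.NM (Circuit Wire)
open Pool.Agent.H679R2.M1 (Clause Sat bits idx)
open Pool.Agent.H64.FN

section Circ

variable {L X : Type}

/-- substitution of input bits and constants for the inputs -/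
def subW {N : ℕ} (σ : L → Option X) (c : L → Bool) : Wire L N → Wire X N
  | .input l => (σ l).elim (.const (c l)) .input
  | .const b => .const b
  | .gate j => .gate j

lemma subW_eval {N : ℕ} (σ : L → Option X) (c : L → Bool) (x : X → Bool) (v : Fin N → Bool)
    (a : Wire L N) : (subW σ c a).eval x v = a.eval (fun l => (σ l).elim (c l) x) v := by
  cases a with
  | input l =>
    unfold subW
    rcases h : σ l with _ | y
    · simp [Wire.eval, h]
    · simp [Wire.eval, h]
  | const b => rfl
  | gate j => rfl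

/-- substitution of input bits and constants for the inputs -/
def subC (σ : L → Option X) (c : L → Bool) : {N : ℕ} → Circuit L N → Circuit X N
  | _, .empty => .empty
  | _, .and C a b => .and (subC σ c C) (subW σ c a) (subW σ c b)
  | _, .or C a b => .or (subC σ c C) (subW σ c a) (subW σ c b)
  | _, .any C w u G a => .any (subC σ c C) w u G (fun j => subW σ c (a j))

lemma subC_vals (σ : L → Option X) (c : L → Bool) (x : X → Bool) {N : ℕ} (C : Circuit L N) :
    (subC σ c C).vals x = C.vals (fun l => (σ l).elim (c l) x) := by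
  induction C with
  | empty => rfl
  | and C a b ih => simp only [subC, Circuit.vals, ih, subW_eval]
  | or C a b ih => simp only [subC, Circuit.vals, ih, subW_eval]
  | any C w u G a ih => simp only [subC, Circuit.vals, ih, subW_eval]

lemma subC_size (σ : L → Option X) (c : L → Bool) {N : ℕ} (C : Circuit L N) :
    (subC σ c C).size = C.size := by
  induction C with
  | empty => rfl
  | and C a b ih => simp only [subC, Circuit.size, ih]
  | or C a b ih => simp only [subC, Circuit.size, ih]
  | any C w u G a ih => simp only [subC, Circuit.size, ih]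

lemma subC_fanins (σ : L → Option X) (c : L → Bool) {N : ℕ} (C : Circuit L N) :
    (subC σ c C).fanins = C.fanins := by
  induction C with
  | empty => rfl
  | and C a b ih => simp only [subC, Circuit.fanins, ih]
  | or C a b ih => simp only [subC, Circuit.fanins, ih]
  | any C w u G a ih => simp only [subC, Circuit.fanins, ih]

lemma wire_mono {N : ℕ} {y y' : L → Bool} (h : y ≤ y') {v v' : Fin N → Bool} (hv : v ≤ v')
    (a : Wire L N) : a.eval y v ≤ a.eval y' v' := by
  cases a with
  | input l => exact h l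
  | const b => exact le_rfl
  | gate j => exact hv j

lemma vals_mono {y y' : L → Bool} (h : y ≤ y') {N : ℕ} (C : Circuit L N) :
    C.fanins = [] → C.vals y ≤ C.vals y' := by
  induction C with
  | empty => intro _ i; exact i.elim0
  | and C a b ih =>
    intro hC i
    have h1 := ih hC
    refine Fin.lastCases ?_ (fun j => ?_) i
    · simp only [Circuit.vals, Fin.snoc_last]
      have ha := wire_mono h h1 a
      have hb := wire_mono h h1 b
      revert ha hb
      generalize a.eval y (C.vals y) = p
      generalize a.eval y' (C.vals y') = p'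
      generalize b.eval y (C.vals y) = r
      generalize b.eval y' (C.vals y') = r'
      cases p <;> cases p' <;> cases r <;> cases r' <;> simp
    · simp only [Circuit.vals, Fin.snoc_castSucc]
      exact h1 j
  | or C a b ih =>
    intro hC i
    have h1 := ih hC
    refine Fin.lastCases ?_ (fun j => ?_) i
    · simp only [Circuit.vals, Fin.snoc_last]
      have ha := wire_mono h h1 a
      have hb := wire_mono h h1 b
      revert ha hb
      generalize a.eval y (C.vals y) = p
      generalize a.eval y' (C.vals y') = p'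
      generalize b.eval y (C.vals y) = r
      generalize b.eval y' (C.vals y') = r'
      cases p <;> cases p' <;> cases r <;> cases r' <;> simp
    · simp only [Circuit.vals, Fin.snoc_castSucc]
      exact h1 j
  | any C w u G a ih =>
    intro hC
    simp [Circuit.fanins] at hC

variable {n v d q N : ℕ}

lemma answer_mono (R : LitReduction n v d q N) {y y' : Sym2 (Fin n) × Bool → Bool} (h : y ≤ y') :
    R.answer y ≤ R.answer y' := by
  classical
  unfold LitReduction.answer
  refine R.ev_mono fun i => ?_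
  by_cases hs : Sat fun c => !(R.drop i c).eval y (R.C.vals y)
  · obtain ⟨a, ha⟩ := hs
    have h2 : Sat fun c => !(R.drop i c).eval y' (R.C.vals y') := by
      refine ⟨a, fun c hc => ha c ?_⟩
      have h3 := wire_mono h (vals_mono h R.C R.plain) (R.drop i c)
      simp only [Bool.not_eq_true'] at hc ⊢
      rw [hc] at h3
      exact Bool.eq_false_of_le_false h3
    rw [decide_eq_true h2]
    exact Bool.le_true _
  · rw [decide_eq_false hs]
    exact Bool.false_le _

open Classical in
/-- the reduction on the small graph as a circuit with one more gate -/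
noncomputable def toC {n' : ℕ} (R : LitReduction n v d q N)
    (σ : Sym2 (Fin n) × Bool → Option (Sym2 (Fin n'))) (c : Sym2 (Fin n) × Bool → Bool) :
    Circuit (Sym2 (Fin n')) (N + 1) :=
  Circuit.any (subC σ c R.C) (bits v d q) 1
    (fun b _ => R.ev fun i => decide (Sat fun c => !b (idx v d q (i, c))))
    (fun j => subW σ c (R.drop ((idx v d q).symm j).1 ((idx v d q).symm j).2))

/-- the output wire -/
def lastW (X : Type) (N : ℕ) : Wire X (N + 1) := .gate (Fin.natAdd N 0)

lemma eval_lastW {n' : ℕ} (R : LitReduction n v d q N)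
    (σ : Sym2 (Fin n) × Bool → Option (Sym2 (Fin n'))) (c : Sym2 (Fin n) × Bool → Bool)
    (x : Sym2 (Fin n') → Bool) :
    (lastW _ N).eval x ((toC R σ c).vals x) = R.answer (fun l => (σ l).elim (c l) x) := by
  classical
  have h : (lastW _ N).eval x ((toC R σ c).vals x) =
      Fin.append ((subC σ c R.C).vals x) (fun _ : Fin 1 => R.ev fun i => decide (Sat fun c' =>
        !(fun j => (subW σ c (R.drop ((idx v d q).symm j).1 ((idx v d q).symm j).2)).eval x
          ((subC σ c R.C).vals x)) (idx v d q (i, c')))) (Fin.natAdd N 0) := rfl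
  rw [h, Fin.append_right]
  unfold LitReduction.answer
  simp only [Equiv.symm_apply_apply, subW_eval, subC_vals]

lemma size_toC {n' : ℕ} (R : LitReduction n v d q N)
    (σ : Sym2 (Fin n) × Bool → Option (Sym2 (Fin n'))) (c : Sym2 (Fin n) × Bool → Bool) :
    (toC R σ c).size = R.C.size := subC_size σ c R.C

lemma fanins_toC {n' : ℕ} (R : LitReduction n v d q N)
    (σ : Sym2 (Fin n) × Bool → Option (Sym2 (Fin n'))) (c : Sym2 (Fin n) × Bool → Bool) :
    (toC R σ c).fanins = [bits v d q] := by
  show bits v d q :: (subC σ c R.C).fanins = _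
  rw [subC_fanins, R.plain]

end Circ

section Host

variable {n n' t : ℕ}

/-- the pair `e` of the large graph lies over the pair `e'` of the small graph -/
def Under (t : ℕ) (e : Sym2 (Fin n)) (e' : Sym2 (Fin n')) : Prop :=
  ¬ e'.IsDiag ∧ e.map (cl n' t) = e'.map some

lemma under_unique {e : Sym2 (Fin n)} {e₁ e₂ : Sym2 (Fin n')} (h1 : Under t e e₁)
    (h2 : Under t e e₂) : e₁ = e₂ :=
  Sym2.map.injective (Option.some_injective _) (h1.2.symm.trans h2.2)

open Classical in
/-- the pair of the small graph under a pair -/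
noncomputable def sg (n' t : ℕ) (e : Sym2 (Fin n)) : Option (Sym2 (Fin n')) :=
  if h : ∃ e' : Sym2 (Fin n'), Under t e e' then some (Classical.choose h) else none

lemma sg_some {e : Sym2 (Fin n)} {e' : Sym2 (Fin n')} (h : Under t e e') :
    sg n' t e = some e' := by
  have hex : ∃ e' : Sym2 (Fin n'), Under t e e' := ⟨e', h⟩
  unfold sg
  rw [dif_pos hex, under_unique (Classical.choose_spec hex) h]

lemma sg_none {e : Sym2 (Fin n)} (h : ¬ ∃ e' : Sym2 (Fin n'), Under t e e') :
    sg n' t e = none := dif_neg h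

/-- the positions between the classes of adjacent vertices -/
def SG (n : ℕ) (t : ℕ) (x : Sym2 (Fin n') → Bool) : Set (Sym2 (Fin n)) :=
  {e | ∃ e' : Sym2 (Fin n'), Under t e e' ∧ x e' = true}

/-- the graph on all vertices -/
noncomputable abbrev hg {D : ℕ} (t : ℕ) (x : Sym2 (Fin n') → Bool) (f : Sym2 (Fin n) → Fin D) :
    Sym2 (Fin n) → Bool :=
  mix (SG n t x) (fun _ => false) f

lemma hg_lits {D : ℕ} (t : ℕ) (x : Sym2 (Fin n') → Bool) (f : Sym2 (Fin n) → Fin D) :
    literals (hg t x f) (flt f) = fun l : Sym2 (Fin n) × Bool =>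
      (if l.2 = true ∧ (f l.1 : ℕ) = 0 then sg n' t l.1 else none).elim
        (if l.2 = true then false else decide ((f l.1 : ℕ) ≠ 0)) x := by
  classical
  funext l
  obtain ⟨e, b⟩ := l
  unfold literals
  by_cases hf : (f e : ℕ) = 0
  · cases b with
    | true =>
      simp only [if_true, hf, and_self]
      by_cases hs : ∃ e' : Sym2 (Fin n'), Under t e e'
      · obtain ⟨e', he'⟩ := hs
        rw [sg_some he']
        simp only [Option.elim_some]
        by_cases hx : x e' = true
        · have h1 : e ∈ SG n t x := ⟨e', he', hx⟩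
          simp [hg, mix, h1, hf, hx]
        · have h1 : e ∉ SG n t x := by
            rintro ⟨e'', h2, h3⟩
            exact hx (under_unique h2 he' ▸ h3)
          simp [hg, mix, h1, hx]
      · have h1 : e ∉ SG n t x := fun ⟨e', h2, _⟩ => hs ⟨e', h2⟩
        rw [sg_none hs]
        simp [hg, mix, h1]
    | false =>
      have hx : e ∈ flt f := hf
      simp [hx, hf]
  · have hx' : e ∉ flt f := hf
    have hmix : hg t x f e = false := by
      unfold hg mix
      by_cases hx : e ∈ SG n t x
      · rw [if_pos hx]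
        simpa using hf
      · rw [if_neg hx]
    cases b with
    | true => simp [hf, hmix]
    | false => simp [hf, hx', hmix]

lemma graph_adj {x : Sym2 (Fin n) → Bool} {a b : Fin n} :
    (graph x).Adj a b ↔ x s(a, b) = true ∧ a ≠ b := by
  rw [graph, SimpleGraph.fromEdgeSet_adj]
  rfl

lemma clique_iff {V : Type} {G : SimpleGraph V} {k : ℕ} :
    ¬ G.CliqueFree k ↔ ∃ c : Fin k → V, ∀ a b, a ≠ b → G.Adj (c a) (c b) := by
  rw [SimpleGraph.not_cliqueFree_iff_top_isContained]
  constructor
  · rintro ⟨ι⟩
    exact ⟨fun a => ι a, fun a b hab => ι.toHom.map_adj (by simpa using hab)⟩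
  · rintro ⟨c, hc⟩
    refine ⟨⟨⟨c, fun {a b} hab => hc a b hab.ne⟩, ?_⟩⟩
    intro a b hab
    by_contra hne
    exact (hc a b hne).ne hab

/-- cliques of the large graph give cliques of the small graph -/
lemma back {D k : ℕ} (hn : 1 ≤ n') (x : Sym2 (Fin n') → Bool) (f : Sym2 (Fin n) → Fin D)
    (h : (graph x).CliqueFree k) : (graph (hg t x f)).CliqueFree k := by
  classical
  by_contra hcon
  obtain ⟨ι, hι⟩ := clique_iff.1 hcon
  have hadj : ∀ a b : Fin k, a ≠ b → (graph x).Adj ((cl n' t (ι a)).getD ⟨0, hn⟩)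
      ((cl n' t (ι b)).getD ⟨0, hn⟩) := by
    intro a b hab
    have h1 : (graph (hg t x f)).Adj (ι a) (ι b) := hι a b hab
    rw [graph_adj] at h1
    have h2 : s(ι a, ι b) ∈ SG n t x := by
      by_contra h3
      have h4 : hg t x f s(ι a, ι b) = true := h1.1
      unfold hg mix at h4
      rw [if_neg h3] at h4
      simp at h4
    obtain ⟨e', ⟨h3, h4⟩, h5⟩ := h2
    induction e' with
    | _ u w =>
    rw [Sym2.map_mk, Sym2.map_mk] at h4
    rw [graph_adj]
    rcases Sym2.eq_iff.1 h4 with ⟨h6, h7⟩ | ⟨h6, h7⟩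
    · rw [h6, h7]
      exact ⟨h5, fun h8 => h3 (by rw [Sym2.mk_isDiag_iff]; exact h8)⟩
    · rw [h6, h7]
      refine ⟨?_, fun h8 => h3 (by rw [Sym2.mk_isDiag_iff]; exact h8.symm)⟩
      show x s(w, u) = true
      rw [Sym2.eq_swap]
      exact h5
  exact clique_iff.2 ⟨_, hadj⟩ h

/-- a clique of the small graph gives a clique if one diagonal is faulty everywhere -/
lemma forth {D s : ℕ} (hnt : n' * t ≤ n) (x : Sym2 (Fin n') → Bool) (f : Sym2 (Fin n) → Fin D)
    (ι : Fin s → Fin n') (hι : ∀ a b, a ≠ b → (graph x).Adj (ι a) (ι b)) (i : Fin t)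
    (hi : ∀ a b : Fin s, a ≠ b → (f s(cand hnt (ι a) i, cand hnt (ι b) i) : ℕ) = 0) :
    ¬ (graph (hg t x f)).CliqueFree s := by
  classical
  have hadj : ∀ a b : Fin s, a ≠ b →
      (graph (hg t x f)).Adj (cand hnt (ι a) i) (cand hnt (ι b) i) := by
    intro a b hab
    have h1 : (graph x).Adj (ι a) (ι b) := hι a b hab
    rw [graph_adj] at h1 ⊢
    have h2 : s(cand hnt (ι a) i, cand hnt (ι b) i) ∈ SG n t x := by
      refine ⟨s(ι a, ι b), ⟨?_, ?_⟩, h1.1⟩
      · rw [Sym2.mk_isDiag_iff]
        exact h1.2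
      · rw [Sym2.map_mk, Sym2.map_mk, cl_cand, cl_cand]
    refine ⟨?_, fun h3 => h1.2 ?_⟩
    · unfold hg mix
      rw [if_pos h2, decide_eq_true_eq]
      exact hi a b hab
    · have h4 := cl_cand hnt (ι a) i
      rw [h3, cl_cand] at h4
      exact (Option.some.inj h4).symm
  exact clique_iff.2 ⟨_, hadj⟩

lemma cand_inj {q s m : ℕ} (hqs : q * s ≤ m) {a b : Fin q} {i j : Fin s}
    (h : cand hqs a i = cand hqs b j) : i = j := by
  have h2 : a.val * s + i.val = b.val * s + j.val := congrArg Fin.val h
  have h3 := congrArg (fun t => t % s) h2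
  simp only [Nat.mul_add_mod_self_right] at h3
  rw [Nat.mod_eq_of_lt i.isLt, Nat.mod_eq_of_lt j.isLt] at h3
  exact Fin.ext h3

lemma pow_small {D P s : ℕ} (hD : 0 < D) (hs : 4 * D ^ P ≤ s) :
    (1 - 1 / (D : ℝ) ^ P) ^ s ≤ 1 / 20 := by
  have hDR : (0 : ℝ) < D := by exact_mod_cast hD
  have hD1 : (1 : ℝ) ≤ D := by exact_mod_cast hD
  have hDP : (0 : ℝ) < (D : ℝ) ^ P := by positivity
  have h0 : 0 ≤ 1 - 1 / (D : ℝ) ^ P := by
    rw [sub_nonneg, div_le_one hDP]
    exact one_le_pow₀ hD1
  have hs' : (4 : ℝ) * (D : ℝ) ^ P ≤ s := by exact_mod_cast hs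
  calc (1 - 1 / (D : ℝ) ^ P) ^ s ≤ (Real.exp (-(1 / (D : ℝ) ^ P))) ^ s := by
        refine pow_le_pow_left₀ h0 ?_ _
        have := Real.add_one_le_exp (-(1 / (D : ℝ) ^ P))
        linarith
    _ = Real.exp (-(s / (D : ℝ) ^ P)) := by
        rw [← Real.exp_nat_mul]
        congr 1
        ring
    _ ≤ Real.exp (-4) := by
        rw [Real.exp_le_exp, neg_le_neg_iff, le_div_iff₀ hDP]
        exact hs'
    _ ≤ 1 / 20 := by
        rw [Real.exp_neg, ← one_div]
        refine one_div_le_one_div_of_le (by norm_num) ?_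
        have h3 : Real.exp 4 = Real.exp 1 ^ 4 := by
          rw [← Real.exp_nat_mul]
          norm_num
        rw [h3]
        have h4 := Real.exp_one_gt_d9
        have h5 : (2.7 : ℝ) ≤ Real.exp 1 := by linarith
        calc (20 : ℝ) ≤ 2.7 ^ 4 := by norm_num
          _ ≤ Real.exp 1 ^ 4 := pow_le_pow_left₀ (by norm_num) h5 _

open Classical in
/-- most functions vanish on a diagonal -/
lemma few_bad {D s : ℕ} (hD : 0 < D) (hnt : n' * t ≤ n) (ht : 4 * D ^ (s ^ 2) ≤ t)
    (ι : Fin s → Fin n') :
    ((univ.filter fun f : Sym2 (Fin n) → Fin D => ¬ ∃ i : Fin t, ∀ a b : Fin s, a ≠ b →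
      (f s(cand hnt (ι a) i, cand hnt (ι b) i) : ℕ) = 0).card : ℝ) ≤
      1 / 20 * (D : ℝ) ^ Fintype.card (Sym2 (Fin n)) := by
  have hDR : (0 : ℝ) < D := by exact_mod_cast hD
  set A : Fin t → Finset (Sym2 (Fin n)) := fun i =>
    ((univ : Finset (Fin s × Fin s)).filter fun p => p.1 ≠ p.2).image
      fun p => s(cand hnt (ι p.1) i, cand hnt (ι p.2) i) with hA
  have h1 := blocks_avoid (D := D) hD A
    (fun i j hij => by
      rw [Finset.disjoint_left]
      intro e he he'
      simp only [hA, mem_image] at he he'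
      obtain ⟨a, _, ha⟩ := he
      obtain ⟨b, _, hb⟩ := he'
      rcases Sym2.eq_iff.1 (ha.trans hb.symm) with ⟨h, _⟩ | ⟨h, _⟩
      · exact hij (cand_inj hnt h)
      · exact hij (cand_inj hnt h))
    (s ^ 2) (fun i => by
      refine card_image_le.trans ((card_filter_le _ _).trans ?_)
      rw [card_univ, Fintype.card_prod, Fintype.card_fin, sq]) univ
  have h2 : (univ.filter fun f : Sym2 (Fin n) → Fin D => ¬ ∃ i : Fin t, ∀ a b : Fin s, a ≠ b →
      (f s(cand hnt (ι a) i, cand hnt (ι b) i) : ℕ) = 0) =
      univ.filter fun f : Sym2 (Fin n) → Fin D => ∀ i ∈ (univ : Finset (Fin t)),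
        ∃ e ∈ A i, (f e : ℕ) ≠ 0 := by
    ext f
    simp only [mem_filter, mem_univ, true_and, forall_true_left, hA, mem_image, Prod.exists,
      not_exists, not_forall]
    constructor
    · intro h i
      obtain ⟨a, b, hab, h3⟩ := h i
      exact ⟨_, ⟨a, b, hab, rfl⟩, h3⟩
    · intro h i
      obtain ⟨e, ⟨a, b, hab, rfl⟩, h3⟩ := h i
      exact ⟨a, b, hab, h3⟩
  have h1' : ((univ.filter fun f : Sym2 (Fin n) → Fin D => ∀ i ∈ (univ : Finset (Fin t)),
        ∃ e ∈ A i, (f e : ℕ) ≠ 0).card : ℝ) ≤
      (1 - 1 / (D : ℝ) ^ (s ^ 2)) ^ (univ : Finset (Fin t)).card *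
        (D : ℝ) ^ Fintype.card (Sym2 (Fin n)) := by
    convert h1
  rw [h2]
  refine h1'.trans (mul_le_mul_of_nonneg_right ?_ (by positivity))
  rw [card_univ, Fintype.card_fin]
  exact pow_small hD ht

variable {d : ℕ}

open Classical in
/-- The transfer to random circuits for the small graph. -/
theorem hosted {s k D : ℕ} (hn : 1 ≤ n') (hnt : n' * t ≤ n) (hD : 1 ≤ D)
    (ht : 4 * D ^ (s ^ 2) ≤ t) {Ω : Type} [Fintype Ω] [Nonempty Ω] {v q N : Ω → ℕ}
    (R : ∀ r, LitReduction n (v r) d (q r) (N r))
    (h : Tolerates s k D fun r y => (R r).answer y) :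
    ∃ C : ∀ w : Ω × (Sym2 (Fin n) → Fin D), Circuit (Sym2 (Fin n')) (N w.1 + 1),
      (∀ w, (C w).size = (R w.1).C.size) ∧ (∀ w, (C w).fanins = [bits (v w.1) d (q w.1)]) ∧
      (∀ x : Sym2 (Fin n') → Bool, ¬ (graph x).CliqueFree s →
        (3 / 4 : ℝ) * Fintype.card (Ω × (Sym2 (Fin n) → Fin D)) ≤
          ((univ.filter fun w => (lastW _ (N w.1)).eval x ((C w).vals x) = true).card : ℝ)) ∧
      ∀ x : Sym2 (Fin n') → Bool, (graph x).CliqueFree k →
        ((univ.filter fun w => (lastW _ (N w.1)).eval x ((C w).vals x) = true).card : ℝ) ≤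
          (1 / 4 : ℝ) * Fintype.card (Ω × (Sym2 (Fin n) → Fin D)) := by
  obtain ⟨F, hF⟩ : ∃ F : Ω → (Sym2 (Fin n) × Bool → Bool) → Prop,
      ∀ r y, F r y ↔ (R r).answer y = true :=
    ⟨fun r y => (R r).answer y = true, fun _ _ => Iff.rfl⟩
  have hFm : ∀ r u v, u ≤ v → F r u → F r v := by
    intro r u v huv hu
    rw [hF] at hu ⊢
    have h1 := answer_mono (R r) huv
    rw [hu] at h1
    exact Bool.eq_true_of_true_le h1
  refine ⟨fun w => toC (R w.1) (fun l => if l.2 = true ∧ (w.2 l.1 : ℕ) = 0 then sg n' t l.1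
    else none) (fun l => if l.2 = true then false else decide ((w.2 l.1 : ℕ) ≠ 0)),
    fun w => size_toC _ _ _, fun w => fanins_toC _ _ _, fun x hx => ?_, fun x hx => ?_⟩
  · obtain ⟨ι, hι⟩ := clique_iff.1 hx
    have h1 := thick_accept (D := D) hD F hFm (SG n t x) (fun _ => false)
      (fun f => ∃ i : Fin t, ∀ a b : Fin s, a ≠ b →
        (f s(cand hnt (ι a) i, cand hnt (ι b) i) : ℕ) = 0)
      (by convert few_bad hD hnt ht ι)
      (by
        rintro f ⟨i, hi⟩
        have h4 := h.yes _ (forth hnt x f ι hι i hi)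
        have hDR : (0 : ℝ) < D := by exact_mod_cast hD
        have hR : (0 : ℝ) < Fintype.card Ω := by exact_mod_cast Fintype.card_pos
        rw [le_div_iff₀ (by
          rw [Nat.card_eq_fintype_card, Fintype.card_prod, Fintype.card_fun, Fintype.card_fin]
          push_cast
          positivity)] at h4
        rw [Nat.card_eq_fintype_card (α := Ω × (Sym2 (Fin n) → Fin D)), Fintype.card_prod,
          Fintype.card_fun, Fintype.card_fin] at h4
        refine (le_of_eq ?_).trans (h4.trans (le_of_eq ?_))
        · push_cast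
          rfl
        · rw [Nat.card_eq_fintype_card, Fintype.card_subtype]
          congr 1
          congr 1
          ext w
          rw [mem_filter, mem_filter, hF]
          exact Iff.rfl)
    refine h1.trans (le_of_eq ?_)
    congr 1
    congr 1
    ext w
    rw [mem_filter, mem_filter, hF, eval_lastW, ← hg_lits]
  · have h1 := thick_reject (D := D) F hFm (SG n t x) (fun _ => false)
      (by
        intro f
        have h4 := h.no (hg t x f) (back hn x f hx)
        have hR : (0 : ℝ) < Fintype.card Ω := by exact_mod_cast Fintype.card_pos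
        rw [div_le_iff₀ (by rw [Nat.card_eq_fintype_card]; exact hR),
          Nat.card_eq_fintype_card (α := Ω)] at h4
        refine le_trans (le_of_eq ?_) h4
        rw [Nat.card_eq_fintype_card, Fintype.card_subtype]
        congr 1
        congr 1
        ext w
        rw [mem_filter, mem_filter, hF])
    refine (le_of_eq ?_).trans h1
    congr 1
    congr 1
    ext w
    rw [mem_filter, mem_filter, hF, eval_lastW, ← hg_lits]

end Host

end Pool.Agent.H64.FR
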